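import Pool.Agent.H732R3.TupIP
import Pool.Agent.H362R2.CM.Final

/-!
# The prime k-tuples conjecture up to bounded perturbation

For every `k` there is `C` such that for every vector `v` of `k` integers there are distinct nonzero
integers `a_i` with `|a_i - v_i| ≤ C` for which `N, N + a_1, ..., N + a_k` are all prime infinitely
often: the `k`-tuples satisfying the conjecture are syndetic in `ℤ^k`. More generally, the same for
`N, N + q a_1, ..., N + q a_k` with `N ≡ r (mod q)`.

The coloured Maynard-Tao theorem (`Pool.Agent.H362R2.CM.Final`) is combined with the density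
Hales-Jewett theorem (`Pool.Agent.Helper903.DHJ`), both of the starting files.
-/

namespace Pool.Agent.Results.MP_8923e7_nt.BoundedPerturbation

theorem result (k q : ℕ) (r : ℤ) (hq : 1 ≤ q) (hqr : IsCoprime r (q : ℤ)) :
    ∃ C : ℕ, ∀ v : Fin k → ℤ, ∃ a : Fin k → ℤ,
      Function.Injective a ∧ (∀ i, a i ≠ 0) ∧ (∀ i, |a i - v i| ≤ C) ∧
        {N : ℕ | N.Prime ∧ (N : ℤ) ≡ r [ZMOD q] ∧
          ∀ i, ∃ p : ℕ, p.Prime ∧ (p : ℤ) = N + q * a i}.Infinite :=
  Pool.Agent.H732R3.Tup.syndetic Pool.Agent.H362R2.CM.quarter k q r hq hqr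

end Pool.Agent.Results.MP_8923e7_nt.BoundedPerturbation
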