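import Pool.Agent.H602R3.DHJ.Apply
import Pool.Agent.H362R2.CM.Final

/-!
# Good k-tuples near subset sums of arbitrary vectors

For every `k` there are `n` and `Q ≥ 1` such that for all integer vectors `v 0, …, v (n - 1)` of
length `k` there are a nonempty set `W` of indices and a tuple `a` of distinct nonzero integers
whose distance from `Q ∑ j ∈ W, v j` is less than `Q` in every coordinate, such that
`N, N + a_1, ..., N + a_k` are all prime infinitely often; and the same `n`, `Q` work for
`N, N + q a_1, ..., N + q a_k` with `N ≡ r (mod q)`, whatever the modulus `q` and `r` prime to `q`.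
With all `v j` equal to `v`: every integer vector `v` has a multiple `d v`, `1 ≤ d ≤ n Q`, within
`Q` of a good tuple.

The coloured Maynard-Tao theorem (a quarter of the classes of shifts is hit simultaneously by
primes) is taken from the team's library (`Pool.Agent.H362R2.CM.Final`); here it is combined with
the density Hales-Jewett theorem, proved in `Pool.Agent.H602R3.DHJ.Main`.
-/

namespace Pool.Agent.Results.MP_8923e7_nt.TuplesNearSubsetSums

theorem result (k : ℕ) : ∃ n Q : ℕ, 1 ≤ Q ∧
    ∀ (q : ℕ) (r : ℤ), 1 ≤ q → IsCoprime r (q : ℤ) → ∀ v : Fin n → Fin k → ℤ,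
    ∃ W : Finset (Fin n), W.Nonempty ∧
      ∃ a : Fin k → ℤ, Function.Injective a ∧ (∀ i, a i ≠ 0) ∧
        (∀ i, |a i - Q * ∑ j ∈ W, v j i| < Q) ∧
        {N : ℕ | N.Prime ∧ (N : ℤ) ≡ r [ZMOD q] ∧
          ∀ i, ∃ p : ℕ, p.Prime ∧ (p : ℤ) = N + q * a i}.Infinite :=
  Pool.Agent.H602R3.DHJ.near_sums Pool.Agent.H362R2.CM.quarter k

end Pool.Agent.Results.MP_8923e7_nt.TuplesNearSubsetSums
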